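import Pool.Agent.Results.MP_2d22f3_nt.ThinSetsAvoided

/-! Sets with few elements and the accelerated map. -/

set_option autoImplicit false

namespace Pool.Agent.R344.TA

open Filter

/-- the accelerated map -/
def T (n : ℕ) : ℕ := if n % 2 = 0 then n / 2 else (3 * n + 1) / 2

/-- the trajectory of `n` meets `A` before it takes a value below `Y` -/
def Meets (A : Set ℕ) (Y : ℝ) (n : ℕ) : Prop :=
  ∃ k : ℕ, T^[k] n ∈ A ∧ ∀ j ≤ k, Y ≤ ((T^[j] n : ℕ) : ℝ)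

theorem T_even {x : ℕ} (h : x % 2 = 0) : T x = x / 2 := by unfold T; rw [if_pos h]

theorem T_odd {x : ℕ} (h : ¬ x % 2 = 0) : T x = (3 * x + 1) / 2 := by unfold T; rw [if_neg h]

theorem C_even {x : ℕ} (h : x % 2 = 0) : Pool.Agent.Results.MP_2d22f3_nt.ThinSetsAvoided.T x = x / 2 := by
  unfold Pool.Agent.Results.MP_2d22f3_nt.ThinSetsAvoided.T; rw [if_pos h]

theorem C_odd {x : ℕ} (h : ¬ x % 2 = 0) : Pool.Agent.Results.MP_2d22f3_nt.ThinSetsAvoided.T x = 3 * x + 1 := by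
  unfold Pool.Agent.Results.MP_2d22f3_nt.ThinSetsAvoided.T; rw [if_neg h]

/-- times of the accelerated map on the trajectory of the map `x / 2`, `3 x + 1` -/
theorem time (n : ℕ) : ∀ k : ℕ, ∃ i : ℕ, k ≤ i ∧
    Pool.Agent.Results.MP_2d22f3_nt.ThinSetsAvoided.T^[i] n = T^[k] n ∧
    ∀ j ≤ i, ∃ l ≤ k, T^[l] n ≤ Pool.Agent.Results.MP_2d22f3_nt.ThinSetsAvoided.T^[j] n
  | 0 => ⟨0, le_rfl, rfl, fun j hj => ⟨0, le_rfl, by
      have : j = 0 := by omega
      subst this; exact le_rfl⟩⟩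
  | k + 1 => by
    obtain ⟨i, h1, h2, h3⟩ := time n k
    by_cases hp : (T^[k] n) % 2 = 0
    · have e1 : Pool.Agent.Results.MP_2d22f3_nt.ThinSetsAvoided.T^[i + 1] n = T^[k + 1] n := by
        rw [Function.iterate_succ_apply', Function.iterate_succ_apply', h2, C_even hp, T_even hp]
      refine ⟨i + 1, by omega, e1, fun j hj => ?_⟩
      rcases Nat.lt_or_ge i j with h | h
      · have : j = i + 1 := by omega
        subst this
        exact ⟨k + 1, le_rfl, le_of_eq e1.symm⟩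
      · obtain ⟨l, hl1, hl2⟩ := h3 j h
        exact ⟨l, by omega, hl2⟩
    · have e1 : Pool.Agent.Results.MP_2d22f3_nt.ThinSetsAvoided.T^[i + 1] n = 3 * T^[k] n + 1 := by
        rw [Function.iterate_succ_apply', h2, C_odd hp]
      have e2 : Pool.Agent.Results.MP_2d22f3_nt.ThinSetsAvoided.T^[i + 2] n = T^[k + 1] n := by
        rw [Function.iterate_succ_apply', e1, Function.iterate_succ_apply', T_odd hp, C_even (by omega)]
      refine ⟨i + 2, by omega, e2, fun j hj => ?_⟩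
      rcases Nat.lt_or_ge i j with h | h
      · rcases Nat.lt_or_ge (i + 1) j with h' | h'
        · have : j = i + 2 := by omega
          subst this
          exact ⟨k + 1, le_rfl, le_of_eq e2.symm⟩
        · have : j = i + 1 := by omega
          subst this
          refine ⟨k, by omega, ?_⟩
          rw [e1]; omega
      · obtain ⟨l, hl1, hl2⟩ := h3 j h
        exact ⟨l, by omega, hl2⟩

theorem meets_of {A : Set ℕ} {Y : ℝ} {n : ℕ} (h : Meets A Y n) :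
    Pool.Agent.Results.MP_2d22f3_nt.ThinSetsAvoided.Meets A Y n := by
  obtain ⟨k, h1, h2⟩ := h
  obtain ⟨i, _, g2, g3⟩ := time n k
  refine ⟨i, by rw [g2]; exact h1, fun j hj => ?_⟩
  obtain ⟨l, hl1, hl2⟩ := g3 j hj
  refine (h2 l hl1).trans ?_
  exact_mod_cast hl2

/-- power saving sets are thin -/
theorem thin_of_power {c C : ℝ} (hc : c < 1) (hC : 0 < C) : ∃ X₀ : ℝ, 2 ≤ X₀ ∧ ∀ X : ℝ, X₀ ≤ X →
    C * X ^ c ≤ X * Real.exp (-(Real.log X) ^ (1 / 2 : ℝ)) := by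
  set η : ℝ := (1 - c) / 2 with hη
  have hη0 : 0 < η := by rw [hη]; linarith
  refine ⟨max 2 (max (Real.exp (1 / η ^ 2)) (Real.exp (Real.log C / η))), le_max_left _ _, fun X hX => ?_⟩
  have hX2 : 2 ≤ X := (le_max_left _ _).trans hX
  have hX0 : 0 < X := by linarith
  have h1 : 1 / η ^ 2 ≤ Real.log X := by
    rw [Real.le_log_iff_exp_le hX0]
    exact (le_max_left _ _).trans ((le_max_right _ _).trans hX)
  have h2 : Real.log C / η ≤ Real.log X := by
    rw [Real.le_log_iff_exp_le hX0]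
    exact (le_max_right _ _).trans ((le_max_right _ _).trans hX)
  set ℓ := Real.log X with hℓ
  have hℓ0 : 0 < ℓ := lt_of_lt_of_le (by positivity) h1
  have h3 : ℓ ^ (1 / 2 : ℝ) ≤ η * ℓ := by
    rw [← Real.sqrt_eq_rpow]
    rw [Real.sqrt_le_left (by positivity)]
    rw [div_le_iff₀ (by positivity)] at h1
    have : (η * ℓ) ^ 2 = ℓ * (ℓ * η ^ 2) := by ring
    rw [this]
    nlinarith
  rw [div_le_iff₀ hη0] at h2
  have e1 : C * X ^ c = Real.exp (Real.log C + c * ℓ) := by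
    rw [Real.exp_add, Real.exp_log hC, mul_comm c ℓ, hℓ, ← Real.rpow_def_of_pos hX0]
  have e2 : X * Real.exp (-ℓ ^ (1 / 2 : ℝ)) = Real.exp (ℓ - ℓ ^ (1 / 2 : ℝ)) := by
    rw [sub_eq_add_neg, Real.exp_add, hℓ, Real.exp_log hX0]
  rw [e1, e2]
  apply Real.exp_le_exp.2
  have : c = 1 - 2 * η := by rw [hη]; ring
  rw [this]
  nlinarith

/-- almost all trajectories avoid sets with a power saving -/
theorem avoid {A : Set ℕ} {c C : ℝ} (hc : c < 1) (hC : 0 < C)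
    (hA : ∀ X : ℝ, 1 ≤ X → (Set.ncard {a : ℕ | a ∈ A ∧ 1 ≤ a ∧ (a : ℝ) ≤ X} : ℝ) ≤ C * X ^ c) (B : ℕ) :
    ∃ K : ℝ, ∀ Y : ℝ, 2 ≤ Y → ∀ N : ℕ,
      (Set.ncard {n : ℕ | 1 ≤ n ∧ n ≤ N ∧ Meets A Y n} : ℝ) ≤ K * N / (Real.log Y) ^ B := by
  obtain ⟨X₀, hX₀, hthin⟩ := thin_of_power hc hC
  obtain ⟨K, hK⟩ := Pool.Agent.Results.MP_2d22f3_nt.ThinSetsAvoided.result.1 (1 / 2) (by norm_num) B
  have hfin : ∀ (P : ℕ → Prop) (N : ℕ), {n : ℕ | 1 ≤ n ∧ n ≤ N ∧ P n}.Finite :=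
    fun P N => (Set.finite_Iic N).subset fun n hn => hn.2.1
  refine ⟨max K ((Real.log X₀) ^ B), fun Y hY N => ?_⟩
  have hY0 : 0 < Real.log Y := Real.log_pos (by linarith)
  rcases le_or_gt X₀ Y with h | h
  · have h1 := hK Y hY A (fun X hX => by
      refine le_trans ?_ (hthin X (h.trans hX))
      refine le_trans ?_ (hA X (by linarith))
      have hsub : {a : ℕ | a ∈ A ∧ Y ≤ (a : ℝ) ∧ (a : ℝ) ≤ X} ⊆ {a : ℕ | a ∈ A ∧ 1 ≤ a ∧ (a : ℝ) ≤ X} := by
        rintro a ⟨a1, a2, a3⟩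
        refine ⟨a1, ?_, a3⟩
        have : (1 : ℝ) ≤ a := by linarith
        exact_mod_cast this
      have hf : {a : ℕ | a ∈ A ∧ 1 ≤ a ∧ (a : ℝ) ≤ X}.Finite := by
        apply (Set.finite_Iic ⌊X⌋₊).subset
        rintro a ⟨_, _, a3⟩
        exact Nat.le_floor a3
      exact_mod_cast Set.ncard_le_ncard hsub hf) N
    calc (Set.ncard {n : ℕ | 1 ≤ n ∧ n ≤ N ∧ Meets A Y n} : ℝ)
        ≤ (Set.ncard {n : ℕ | 1 ≤ n ∧ n ≤ N ∧
          Pool.Agent.Results.MP_2d22f3_nt.ThinSetsAvoided.Meets A Y n} : ℝ) := by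
          have hsub : {n : ℕ | 1 ≤ n ∧ n ≤ N ∧ Meets A Y n} ⊆ {n : ℕ | 1 ≤ n ∧ n ≤ N ∧
            Pool.Agent.Results.MP_2d22f3_nt.ThinSetsAvoided.Meets A Y n} :=
            fun n hn => ⟨hn.1, hn.2.1, meets_of hn.2.2⟩
          exact_mod_cast Set.ncard_le_ncard hsub (hfin _ _)
      _ ≤ K * N / (Real.log Y) ^ B := h1
      _ ≤ _ := by
          apply div_le_div_of_nonneg_right _ (by positivity)
          exact mul_le_mul_of_nonneg_right (le_max_left _ _) (by positivity)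
  · have h1 : (Set.ncard {n : ℕ | 1 ≤ n ∧ n ≤ N ∧ Meets A Y n} : ℝ) ≤ N := by
      have hsub : {n : ℕ | 1 ≤ n ∧ n ≤ N ∧ Meets A Y n} ⊆ ((Finset.Icc 1 N : Finset ℕ) : Set ℕ) := by
        rintro n ⟨a, b, _⟩
        rw [Finset.coe_Icc]; exact ⟨a, b⟩
      have h2 := Set.ncard_le_ncard hsub (Finset.finite_toSet _)
      rw [Set.ncard_coe_finset, Nat.card_Icc] at h2
      exact_mod_cast (by omega : Set.ncard {n : ℕ | 1 ≤ n ∧ n ≤ N ∧ Meets A Y n} ≤ N)
    refine h1.trans ?_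
    rw [le_div_iff₀ (by positivity), mul_comm]
    apply mul_le_mul_of_nonneg_right _ (by positivity)
    refine le_trans ?_ (le_max_right _ _)
    apply pow_le_pow_left₀ hY0.le
    exact Real.log_le_log (by linarith) h.le

end Pool.Agent.R344.TA
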